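import Pool.Agent.Work.MP_60d5ce_nt.AG.Main

/-!
# The `p^∞`-Selmer group of `E` grows by a finite amount in almost all Artin-Schreier extensions
-/

namespace Pool.Agent.Results.MP_60d5ce_nt.ASConductorGrowth

open scoped IntermediateField Topology
open Polynomial Filter Pool.Agent.ASel

theorem result (p : ℕ) (k : Type) [Field k] [Fintype k] [CharP k p] (h5 : 5 ≤ p)
    (a4 a6 A : k[X]) (hA : A = ((X ^ 3 + C a4 * X + C a6) ^ ((p - 1) / 2)).coeff (p - 1))
    (h1 : ∀ y : RatFunc k, y ^ (p - 1) ≠ algebraMap k[X] (RatFunc k) A)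
    (h2 : 2 * a4 * derivative a6 ≠ 3 * derivative a4 * a6) (E : WeierstrassCurve (RatFunc k))
    (hE : E = ⟨0, 0, 0, algebraMap k[X] (RatFunc k) a4, algebraMap k[X] (RatFunc k) a6⟩)
    (Ω : Type) [Field Ω] [Algebra (RatFunc k) Ω] [IsSepClosure (RatFunc k) Ω] [DecidableEq Ω] :
    Tendsto (fun N : ℕ => ({L | L ∈ ASx k p Ω N ∧ FinIdx p E L}.ncard : ℝ) /
      ((ASx k p Ω N).ncard : ℝ)) atTop (𝓝 1) := by
  have : Fact p.Prime := ⟨CharP.char_is_prime k p⟩
  subst hE hA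
  exact Hy.main ⟨h5, disc_ne h5 h2, h2, h1⟩ Ω

end Pool.Agent.Results.MP_60d5ce_nt.ASConductorGrowth
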