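import Pool.Agent.Work.MP_60d5ce_nt.AS.Main
import Pool.Agent.Work.MP_60d5ce_nt.AS.SIdx

/-!
# The `p^∞`-Selmer group of an ordinary `E` grows by a finite amount in almost all Artin-Schreier
extensions
-/

namespace Pool.Agent.Results.MP_60d5ce_nt.ASSelmerGrowth

open scoped IntermediateField Topology
open Polynomial Filter Pool.Agent.ASel

theorem result (p : ℕ) (k : Type) [Field k] [Fintype k] [CharP k p] (h5 : 5 ≤ p)
    (a4 a6 A D P : k[X]) (hA : A = ((X ^ 3 + C a4 * X + C a6) ^ ((p - 1) / 2)).coeff (p - 1))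
    (hD : D = 4 * a4 ^ 3 + 27 * a6 ^ 2) (h0 : A ≠ 0) (hP : Irreducible P)
    (h1 : Odd (multiplicity P A)) (h2 : ¬ P ∣ D)
    (h3 : 2 * a4 * derivative a6 ≠ 3 * derivative a4 * a6) (E : WeierstrassCurve (RatFunc k))
    (hE : E = ⟨0, 0, 0, algebraMap k[X] (RatFunc k) a4, algebraMap k[X] (RatFunc k) a6⟩)
    (Ω : Type) [Field Ω] [Algebra (RatFunc k) Ω] [IsSepClosure (RatFunc k) Ω] [DecidableEq Ω] :
    Tendsto (fun N : ℕ => ({x | x ∈ Prs (A * D) N ∧ ∀ δ : Ω, δ ^ p - δ = algebraMap (RatFunc k) Ω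
      (algebraMap k[X] (RatFunc k) x.1 / algebraMap k[X] (RatFunc k) x.2) →
        FinIdx p E (RatFunc k)⟮δ⟯}.ncard : ℝ) / ((Prs (A * D) N).ncard : ℝ)) atTop (𝓝 1) := by
  have : Fact p.Prime := ⟨CharP.char_is_prime k p⟩
  subst hE hA hD
  have h : Hy p a4 a6 := hy_of h5 h0 hP h1 h2 h3
  refine tendsto_of_imp (h.bad_rare hP h1 h2) fun N hN x hx hB δ hδ => ?_
  obtain ⟨e1, e2, e3⟩ := fam_d (p := p) hN hx
  exact h.bridge e1 hx.1.ne_zero hx.2.2.2.1 e2 e3 hB δ hδ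

end Pool.Agent.Results.MP_60d5ce_nt.ASSelmerGrowth
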