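import Pool.Agent.Work.MP_60d5ce_nt.Sm.SelB

/-!
# The `3^∞`-Selmer group of `E` over `F_q(t, d^(1/3))` is finite for almost all `d`
-/

namespace Pool.Agent.Results.MP_60d5ce_nt.CubicSelmerFinite

open scoped IntermediateField Topology
open Polynomial Filter Pool.Agent.ShaAsc Pool.Agent.Smith

theorem result (k : Type) [Field k] [Fintype k] (hq : Fintype.card k % 3 = 1)
    (a1 a3 P Q : k[X]) (α β : ℕ) (hP : Irreducible P) (hQ : Irreducible Q)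
    (hPQ : ¬ Associated P Q) (h3 : Associated a3 (P ^ α))
    (hD : Associated (a1 ^ 3 - 27 * a3) (Q ^ β))
    (hn : ¬ 3 ∣ α * β * P.natDegree * Q.natDegree) (E : WeierstrassCurve (RatFunc k))
    (hE : E = ⟨algebraMap k[X] (RatFunc k) a1, 0, algebraMap k[X] (RatFunc k) a3, 0, 0⟩)
    (Ω : Type) [Field Ω] [Algebra (RatFunc k) Ω] [IsSepClosure (RatFunc k) Ω] [DecidableEq Ω] :
    Tendsto (fun n : ℕ => ({d : k[X] | d ≠ 0 ∧ d.natDegree = n ∧ ∀ δ : Ω,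
      δ ^ 3 = algebraMap (RatFunc k) Ω (algebraMap k[X] (RatFunc k) d) →
        ∃ S : Set ((Ω ≃ₐ[(RatFunc k)⟮δ⟯] Ω) → Pts E Ω), S.Finite ∧
          ∀ c, InSel3 E c → ∃ s ∈ S, SameClass E c s}.ncard : ℝ) /
      ({d : k[X] | d ≠ 0 ∧ d.natDegree = n}.ncard : ℝ)) atTop (𝓝 1) := by
  subst hE
  have h : Two a1 a3 P Q α β := ⟨hP, hQ, hPQ, h3, hD, hn⟩
  exact main_gen hq h.hyp _ fun X0 _ _ _ hK hT => sel_fin h.hyp X0 hK hT (h.triv X0)

end Pool.Agent.Results.MP_60d5ce_nt.CubicSelmerFinite
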