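import Pool.Agent.Work.MP_60d5ce_nt.Hy.Main

/-!
# Half of the quadratic twists of a hyperelliptic Jacobian over `F_q(t)` have analytic rank zero,
and half have analytic rank one
-/

namespace Pool.Agent.Results.MP_60d5ce_nt.HyperTwistGoldfeld

open scoped Topology
open Polynomial Filter Pool.Agent.Hyp

theorem result (k : Type) [Field k] [Fintype k] (g : ℕ) (hg : 0 < g)
    (hk : (((2 * g + 1).factorial : ℕ) : k) ≠ 0) (f : k[X][X]) (hm : f.Monic)
    (hd : f.natDegree = 2 * g + 1) (hs : Squarefree f.discr) (h0 : 0 < f.discr.natDegree)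
    (hi : ∀ i, (2 * g + 1) * (2 * g) * (f.coeff i).natDegree ≤
      (2 * g + 1 - i) * f.discr.natDegree)
    (F : ℕ → Type) [∀ n, Field (F n)] [∀ n, Algebra k (F n)]
    (hF : ∀ n, Module.finrank k (F n) = n + 1) (r : ℕ) (hr : r ≤ 1) :
    Tendsto (fun n : ℕ => ({d : k[X] | d ≠ 0 ∧ d.natDegree = n ∧ IsCoprime d f.discr ∧
      ∃ p : ℚ[X], LSer F f d = (p : PowerSeries ℚ) ∧
        p.rootMultiplicity (Fintype.card k : ℚ)⁻¹ = r}.ncard : ℝ) /
      ({d : k[X] | d ≠ 0 ∧ d.natDegree = n ∧ IsCoprime d f.discr}.ncard : ℝ)) atTop (𝓝 (1 / 2)) := by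
  let _ : Par := ⟨g, (2 * g + 1).factorial, hg,
    (Nat.factorial_dvd_factorial (show 3 ≤ 2 * g + 1 by omega)), Nat.factorial_pos _⟩
  have h := main_half (F := F) hk ⟨dvd_rfl, hm, hd, hs, h0, hi⟩ hF hr
  simpa only [Cn, Zr, Set.mem_ofPred_eq, and_assoc] using h

end Pool.Agent.Results.MP_60d5ce_nt.HyperTwistGoldfeld
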