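import Pool.Agent.Work.MP_60d5ce_nt.Redei

/-!
The 2-primary part of the Tate-Shafarevich group of the Legendre curve
`y^2 = x (x + 1) (x + t)`, `t = g(v)^d`, `d = p^f + 1`, over `F(v)` vanishes under quadratic
residue conditions between the prime factors of `g` and those of `g^d - 1`.
-/

open Polynomial Pool.Agent.ShaFF

theorem Pool.Agent.Results.MP_60d5ce_nt.LegendreRedei.result
    (F : Type) [Field F] [Finite F] (p : ℕ) [Fact p.Prime] [CharP F p] (hp : p ≠ 2)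
    (f : ℕ) (hf : 0 < f) (d : ℕ) (hd : d = p ^ f + 1) (hμ : ∃ ζ₀ : F, IsPrimitiveRoot ζ₀ d)
    (g : F[X]) (hdeg : 0 < g.natDegree)
    (hinf : Odd g.natDegree ∨ ¬ IsSquare g.leadingCoeff)
    (hU : ∀ a : F[X], Squarefree a → a ∣ g →
      (∀ h : F[X], Irreducible h → h ∣ g ^ d - 1 → ∃ r : F[X], h ∣ a - r ^ 2) →
      IsSquare a ∨ IsSquare (a * g))
    (hW : ∀ a : F[X], Squarefree a → a ∣ g ^ d - 1 →
      (∀ h : F[X], Irreducible h → h ∣ g → ∃ r : F[X], h ∣ a - r ^ 2) →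
      ∃ A : Finset F, (∀ ζ ∈ A, ζ ^ d = 1) ∧ IsSquare (a * ∏ ζ ∈ A, (g - C ζ)))
    (t : RatFunc F) (ht : t = algebraMap F[X] (RatFunc F) g ^ d)
    (E : WeierstrassCurve (RatFunc F)) (hE : E = ⟨0, 1 + t, 0, t, 0⟩)
    (Ω : Type) [Field Ω] [Algebra (RatFunc F) Ω] [IsSepClosure (RatFunc F) Ω] [DecidableEq Ω]
    (c : (Ω ≃ₐ[RatFunc F] Ω) → Pts E Ω) (hc : InSha E c)
    (n : ℕ) (hn : IsCoboundary E (2 ^ n • c)) : IsCoboundary E c := by
  subst hd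
  obtain ⟨ζ₀, hζ₀⟩ := hμ
  exact legendre_sha2 hp hf hζ₀ g hdeg hinf hU hW t ht E hE Ω c hc n hn
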