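import Pool.Agent.Work.MP_60d5ce_nt.Asc.Poly

/-!
Ascent of the 2-primary Tate-Shafarevich group of `y^2 = x (x^2 + a x + b)` from a subfield `K`
of odd index to `F(v)`, under quadratic residue conditions on the prime factors of `b` and
`a^2 - 4 b` in `F[v]`.
-/

open Polynomial Pool.Agent.ShaAsc

theorem Pool.Agent.Results.MP_60d5ce_nt.OddAscent.result
    (F : Type) [Field F] [Finite F] (p : ℕ) [Fact p.Prime] [CharP F p] (hp : p ≠ 2)
    (K : Type) [Field K] [Algebra K (RatFunc F)] [FiniteDimensional K (RatFunc F)]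
    [Algebra.IsSeparable K (RatFunc F)] (hodd : Odd (Module.finrank K (RatFunc F)))
    (a b : K) (A B : F[X])
    (hA : algebraMap K (RatFunc F) a = algebraMap F[X] (RatFunc F) A)
    (hB : algebraMap K (RatFunc F) b = algebraMap F[X] (RatFunc F) B)
    (hB0 : B ≠ 0) (hD : A ^ 2 - 4 * B ≠ 0)
    (h1 : Redei K A B) (h2 : Redei K (-2 * A) (A ^ 2 - 4 * B))
    (E : WeierstrassCurve K) (hE : E = ⟨0, a, 0, b, 0⟩)
    (Ω : Type) [Field Ω] [Algebra (RatFunc F) Ω] [Algebra K Ω] [IsScalarTower K (RatFunc F) Ω]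
    [IsSepClosure (RatFunc F) Ω] [DecidableEq Ω]
    (c' : (Ω ≃ₐ[RatFunc F] Ω) → Pts E Ω) (hc' : InSha E c')
    (M : ℕ) (hM : IsCoboundary E (2 ^ M • c')) :
    ∃ c : (Ω ≃ₐ[K] Ω) → Pts E Ω, InSha E c ∧ IsCoboundary E (2 ^ M • c) ∧
      IsCoboundary E (c' - fun h : Ω ≃ₐ[RatFunc F] Ω => c (h.restrictScalars K)) :=
  ascent_ratFunc p hp hodd a b A B hA hB hB0 hD h1 h2 E hE hc' M hM
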