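import Pool.Agent.Work.MP_60d5ce_nt.H9Pencil
import Pool.Agent.Work.MP_60d5ce_nt.H9Rank

/-!
For pencils of superelliptic curves with small weights the order of vanishing of the `L`-function
at `s = 1` is at most the rank of the Jacobian.
-/

namespace Pool.Agent.Work.MP_60d5ce_nt.Old.PencilRank

open Pool.Agent.Work.MP_60d5ce_nt Polynomial

theorem result (p : ℕ) [Fact p.Prime] (F : Type) [Field F] [Finite F] [CharP F p] (P : Pencil F)
    (f e D : ℕ) (hf : Nat.card F = p ^ f) (hm : P.m ∣ Nat.card F - 1) (hh : P.h ≠ 0) (hc : P.c ≠ 0)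
    (hδ : P.δ ≠ 0) (ha : ∀ i, (P.a i).Coprime P.m) (hb : ∀ i, (P.b i).Coprime P.m)
    (hs : (∑ i, P.a i + ∑ i, P.b i * (P.φ i).natDegree).Coprime P.m)
    (hs' : (P.h.natDegree +
      P.G.natDegree * (∑ i, P.a i + ∑ i, P.b i * (P.φ i).natDegree)).Coprime P.m)
    (he : 0 < e) (hD : 0 < D) (hg : ∀ i, (P.g i).natDegree ≤ e)
    (hφ : ∀ i, 0 < (P.φ i).natDegree ∧ (P.φ i).natDegree ≤ D) (hG : e < P.G.natDegree)
    (hcG : P.c.natDegree < P.G.natDegree)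
    (H : ∀ k : ℕ, ¬ P.m ∣ k → ∃ u : ℕ, u.Coprime P.m ∧
      ((Finset.range f).filter fun j =>
        1 ≤ P.A D (p ^ j * u * k) ∧ (e : ℚ) + 1 ≤ P.W e D (p ^ j * u * k)).card <
      ((Finset.range f).filter fun j => P.W e D (p ^ j * u * k) < 1).card)
    (K : Type) [Field K] [Algebra (RatFunc F)[X] K] [Algebra (RatFunc (RatFunc F)) K]
    [IsScalarTower (RatFunc F)[X] (RatFunc (RatFunc F)) K] (y : K)
    (hy : y ^ P.m = algebraMap (RatFunc F)[X] K (P.Φ (C RatFunc.X) X))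
    (hK : Algebra.adjoin (RatFunc (RatFunc F)) {y} = ⊤) :
    ∃ (ρ : ℕ) (A B : ℚ[X]), A.eval (Nat.card F : ℚ)⁻¹ ≠ 0 ∧ B.eval (Nat.card F : ℚ)⁻¹ ≠ 0 ∧
      P.L p * (B : PowerSeries ℚ) =
        (1 - (Nat.card F : PowerSeries ℚ) * PowerSeries.X) ^ ρ * (A : PowerSeries ℚ) ∧
      (ρ : Cardinal) ≤ Module.rank ℤ (Additive (ClassGroup (integralClosure (RatFunc F)[X] K))) ∧
      ρ + Nat.card {M : Ideal F[X] // M.IsMaximal ∧ P.c ∈ M} =
        Nat.card {M : Ideal F[X][X] // M.IsMaximal ∧ C P.c ∈ M ∧ X ^ P.m - C (P.Φ 0 X) ∈ M} := by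
  have hq : 0 < Nat.card F - 1 := Nat.sub_pos_of_lt Finite.one_lt_card
  have hm1 := Nat.pos_of_dvd_of_pos hm hq
  have hm0 : (0 : ℚ) < P.m := Nat.cast_pos.2 hm1
  obtain ⟨ζ, hζ⟩ : ∃ ζ : F, IsPrimitiveRoot ζ P.m := by
    obtain ⟨g, hg⟩ := IsCyclic.exists_ofOrder_eq_natCard (α := Fˣ)
    obtain ⟨d, hd⟩ := hm
    exact ⟨_, IsPrimitiveRoot.coe_units_iff.2 ((IsPrimitiveRoot.orderOf g).pow
      (orderOf_pos g) (by rw [hg, Nat.card_units, hd, mul_comm]))⟩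
  have hΦ := Φ_deg P hh he hg (fun i => (hφ i).1) hG hcG (X : F[X])
  obtain ⟨_, _, ρ, h1, h2⟩ := rank_ge (k := F) (F := RatFunc F) (Φ := P.Φ (C X) X)
    (hy.trans (congrArg _ (Eq.trans (by simp) (Φ_map P (mapAlgHom
      (IsScalarTower.toAlgHom F F[X] (RatFunc F))) _ _).symm))) hK hΦ.1 (hΦ.2 ▸ hs')
    (swap_Φ_deg P hh hc (fun i => (hφ i).1) ▸ hs) hζ hm1.ne' hc (dvd_Φ P)
  have h := Pool.Agent.Lib.Dwork.ld_exp_subst (g := (PowerSeries.X * PowerSeries.mk fun n =>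
    (P.trace (FiniteField.Extension F p (n + 1)) : ℚ) / (n + 1) : PowerSeries ℚ)) (by simp)
  obtain ⟨A, B, h3, h4, h5⟩ := pencil_main P p hf hm hh hc hδ ha hb hs hs' he hD hg hφ hG hcG _ _
    (fun _ => rfl) (fun _ => rfl) (fun k hk => (H k hk).imp fun u hu => ⟨hu.1, by
      have h := hu.2
      simp only [Pencil.A, Pencil.W, ← Nat.cast_mul, Int.fract_div_natCast_eq_div_natCast_mod,
        ← Finset.sum_div, ← Nat.cast_sum, ← mul_div_assoc, ← add_div, div_lt_one hm0,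
        le_div_iff₀ hm0, one_mul] at h
      simp only [← mul_assoc]
      exact_mod_cast h⟩) h1 (L := P.L p) (by
    refine Eq.subst (motive := fun w => Pool.Agent.Lib.Dwork.LD w _) ?_ h
    ext (_ | n)
    · simp
    · rw [Pool.Agent.Lib.Dwork.coeff_X_mul_deriv, PowerSeries.coeff_succ_X_mul,
        PowerSeries.coeff_succ_X_mul, PowerSeries.coeff_mk, PowerSeries.coeff_mk, Nat.cast_succ,
        mul_div_cancel₀ _ (by positivity)])
  exact ⟨ρ, A, B, h3, h4, by rwa [map_natCast] at h5, h2, h1⟩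

end Pool.Agent.Work.MP_60d5ce_nt.Old.PencilRank
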