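import Pool.Agent.Work.MP_60d5ce_nt.Qt.MainA

/-!
# For almost all quadratic twists of `E / F_q(t)` the generalised eigenspace of Frobenius for the
eigenvalue one on `H^1(P^1, j_* E^d[2^∞])` has corank at most one
-/

namespace Pool.Agent.Results.MP_60d5ce_nt.QuadTwistCorank

open scoped Topology
open Polynomial Filter Pool.Agent.Quad

theorem result (k : Type) [Field k] [Fintype k] (h6 : (6 : k) ≠ 0) (A B P : k[X])
    (hroot : ∀ r : RatFunc k,
      r ^ 3 + algebraMap k[X] (RatFunc k) A * r + algebraMap k[X] (RatFunc k) B ≠ 0)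
    (hP : Irreducible P) (hA : ¬ P ∣ A) (hodd : Odd (multiplicity P (4 * A ^ 3 + 27 * B ^ 2)))
    (E : k[X] → WeierstrassCurve (RatFunc k))
    (hE : ∀ d, E d = ⟨0, 0, 0, algebraMap k[X] (RatFunc k) (d ^ 2 * A),
      algebraMap k[X] (RatFunc k) (d ^ 3 * B)⟩)
    (Ω : Type) [Field Ω] [Algebra (RatFunc k) Ω] [IsSepClosure (RatFunc k) Ω] [DecidableEq Ω] :
    Tendsto (fun n : ℕ => ({d : k[X] | d ≠ 0 ∧ d.natDegree = n ∧ ∀ φ : Ω ≃ₐ[RatFunc k] Ω,
      (∀ a : Ω, IsOfFinOrder a → φ a = a ^ Fintype.card k) → CorankLeOne (E d) φ}.ncard : ℝ) /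
      ({d : k[X] | d ≠ 0 ∧ d.natDegree = n}.ncard : ℝ)) atTop (𝓝 1) := by
  obtain rfl : E = fun d => EC (d ^ 2 * A) (d ^ 3 * B) := funext hE
  exact main_corank h6 ⟨hroot, P, hP, hA, hodd⟩ Ω

end Pool.Agent.Results.MP_60d5ce_nt.QuadTwistCorank
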