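import Pool.Agent.Work.MP_60d5ce_nt.Lb.Main

/-!
# For almost all quadratic twists of `E / F_q(t)` the `L`-series vanishes to order at most one at
the central point
-/

namespace Pool.Agent.Results.MP_60d5ce_nt.QuadTwistLRank

open scoped Topology
open Polynomial Filter Pool.Agent.Lef

theorem result (k : Type) [Field k] [Fintype k] (h6 : (6 : k) ≠ 0) (A B P : k[X])
    (hroot : ∀ r : RatFunc k,
      r ^ 3 + algebraMap k[X] (RatFunc k) A * r + algebraMap k[X] (RatFunc k) B ≠ 0)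
    (hP : Irreducible P) (hA : ¬ P ∣ A) (hodd : Odd (multiplicity P (4 * A ^ 3 + 27 * B ^ 2)))
    (F : ℕ → Type) [∀ n, Field (F n)] [∀ n, Algebra k (F n)]
    (hF : ∀ n, Module.finrank k (F n) = n + 1) :
    Tendsto (fun n : ℕ => ({d : k[X] | d ≠ 0 ∧ d.natDegree = n ∧
      ∃ p : ℚ[X], LSer F (d ^ 2 * A) (d ^ 3 * B) = (p : PowerSeries ℚ) ∧
        p.rootMultiplicity (Fintype.card k : ℚ)⁻¹ ≤ 1}.ncard : ℝ) /
      ({d : k[X] | d ≠ 0 ∧ d.natDegree = n}.ncard : ℝ)) atTop (𝓝 1) :=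
  main_lser h6 ⟨hroot, P, hP, hA, hodd⟩ F hF

end Pool.Agent.Results.MP_60d5ce_nt.QuadTwistLRank
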