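import Pool.Agent.Work.MP_60d5ce_nt.H9Main

/-!
The `L`-function of the Jacobian of a superelliptic curve with small weights does not vanish at
`s = 1` over Kummer extensions of `F(t)` and over towers of Artin-Schreier extensions.
-/

namespace Pool.Agent.Results.MP_60d5ce_nt.TowerNonvanishing

open Pool.Agent.Work.MP_60d5ce_nt

theorem result (p : ℕ) [Fact p.Prime] (F : Type) [Field F] [Finite F] [CharP F p] (T : Tower F)
    (e D : ℕ) (hm : T.m ∣ Nat.card F - 1) (hd : T.d ∣ Nat.card F - 1) (hc : 0 < T.c) (hδ : T.δ ≠ 0)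
    (ha : ∀ i, (T.a i).Coprime T.m) (hb : ∀ i, (T.b i).Coprime T.m)
    (hs : (∑ i, T.a i + ∑ i, T.b i * (T.φ i).natDegree).Coprime T.m) (he : 0 < e) (hD : 0 < D)
    (hg : ∀ i, (T.g i).natDegree ≤ e) (hφ : ∀ i, 0 < (T.φ i).natDegree ∧ (T.φ i).natDegree ≤ D)
    (H : ∀ k l : ℕ, ¬ T.m ∣ k → ∃ u : ℕ, u.Coprime (T.m * T.d) ∧
      (∀ j : ℕ, ∑ i, Int.fract ((p : ℚ) ^ j * u * k * T.a i / T.m) +
        D * ∑ i, Int.fract ((p : ℚ) ^ j * u * k * T.b i / T.m) < 1) ∧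
      ∀ l' : ℕ, ∃ j : ℕ, (D : ℚ) * (e * (∑ i, Int.fract ((p : ℚ) ^ j * u * k * T.a i / T.m) +
          ∑ i, Int.fract ((p : ℚ) ^ j * u * k * T.b i / T.m)) +
        T.h.natDegree * Int.fract ((p : ℚ) ^ j * u * k / T.m) +
        T.κ.natDegree * Int.fract ((p : ℚ) ^ j * u * l / T.d) +
        T.ν.natDegree * Int.fract ((p : ℚ) ^ j * l' / T.c)) < 1) :
    ∃ A B : Polynomial ℚ, A.eval (Nat.card F : ℚ)⁻¹ ≠ 0 ∧ B.eval (Nat.card F : ℚ)⁻¹ ≠ 0 ∧
      T.L p * (B : PowerSeries ℚ) = (A : PowerSeries ℚ) := by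
  have hq : 0 < Nat.card F - 1 := Nat.sub_pos_of_lt Finite.one_lt_card
  have hm0 : (0 : ℚ) < T.m := Nat.cast_pos.2 (Nat.pos_of_dvd_of_pos hm hq)
  have hd0 : (0 : ℚ) < T.d := Nat.cast_pos.2 (Nat.pos_of_dvd_of_pos hd hq)
  have hc0 : (0 : ℚ) < T.c := Nat.cast_pos.2 hc
  refine main T p hm hd hc.ne' hδ ha hb hs he hD hg hφ (fun k l hk => ?_) ?_
  · obtain ⟨u, hu, h1, h2⟩ := H k l hk
    simp only [← Nat.cast_pow, ← Nat.cast_mul, Int.fract_div_natCast_eq_div_natCast_mod,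
      ← Finset.sum_div, ← Nat.cast_sum] at h1 h2
    simp only [← mul_assoc]
    simp only [← mul_div_assoc, ← add_div, div_lt_one hm0] at h1
    refine ⟨u, hu, fun j => by exact_mod_cast h1 j, fun l' => ?_⟩
    obtain ⟨j, hj⟩ := h2 l'
    refine ⟨j, Nat.cast_lt (α := ℚ).1 ?_⟩
    have := mul_lt_mul_of_pos_left hj (mul_pos (mul_pos hm0 hd0) hc0)
    simp only [Nat.cast_add, Nat.cast_mul]
    convert this using 1
    · field_simp
      ring
    · rw [mul_one]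
  have h := Pool.Agent.Lib.Dwork.ld_exp_subst (g := (PowerSeries.X * PowerSeries.mk fun n =>
    (T.trace p (FiniteField.Extension F p (n + 1)) : ℚ) / (n + 1) : PowerSeries ℚ)) (by simp)
  refine Eq.subst (motive := fun w => Pool.Agent.Lib.Dwork.LD w _) ?_ h
  ext (_ | n)
  · simp
  · rw [Pool.Agent.Lib.Dwork.coeff_X_mul_deriv, PowerSeries.coeff_succ_X_mul,
      PowerSeries.coeff_succ_X_mul, PowerSeries.coeff_mk, PowerSeries.coeff_mk, Nat.cast_succ,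
      mul_div_cancel₀ _ (by positivity)]

end Pool.Agent.Results.MP_60d5ce_nt.TowerNonvanishing
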